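import Pool.Agent.Helper68.Dom.Goals

/-!
# DOM-TWO: the vertex `x` has at least two neighbours in the rest
-/

namespace NApexGraphs.Dom.Helper5

open SimpleGraph NApexGraphs NApexGraphs.Dom

/-- three disjoint nonempty sets meet the complement of `{u, x}` -/
theorem exists_ne {V : Type} {u x : V} (S : Fin 3 → Set V) (hne : ∀ i, (S i).Nonempty)
    (hd : ∀ i j, i ≠ j → Disjoint (S i) (S j)) : ∃ p, p ≠ u ∧ p ≠ x := by
  by_contra hcon
  push Not at hcon
  choose y hy using hne
  have hinj : ∀ i j, i ≠ j → y i ≠ y j := fun i j hij he =>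
    Set.disjoint_left.1 (hd i j hij) (hy i) (he ▸ hy j)
  have h : ∀ i, y i = u ∨ y i = x := fun i => by
    by_cases h : y i = u
    · exact Or.inl h
    · exact Or.inr (hcon _ h)
  have h01 := hinj 0 1 (by decide)
  have h02 := hinj 0 2 (by decide)
  have h12 := hinj 1 2 (by decide)
  rcases h 0 with h0 | h0 <;> rcases h 1 with h1 | h1 <;> rcases h 2 with h2 | h2
  · exact h01 (h0.trans h1.symm)
  · exact h01 (h0.trans h1.symm)
  · exact h02 (h0.trans h2.symm)
  · exact h12 (h1.trans h2.symm)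
  · exact h12 (h1.trans h2.symm)
  · exact h02 (h0.trans h2.symm)
  · exact h01 (h0.trans h1.symm)
  · exact h01 (h0.trans h1.symm)

theorem exists_ne_of_not_pl {V : Type} {G : SimpleGraph V} {Z : Set V} {u x : V}
    (h : ¬ Pl G Z) : ∃ p, p ≠ u ∧ p ≠ x := by
  have h' : HasK5 G Z ∨ HasK33 G Z := by
    by_contra hcon
    push Not at hcon
    exact h hcon
  rcases h' with ⟨B, hB, -⟩ | ⟨B, hB, -⟩
  · rw [isModel_iff] at hB
    obtain ⟨h1, h2, -⟩ := hB
    exact exists_ne (fun i : Fin 3 => B (Fin.castLE (by decide) i)) (fun i => (h1 _).1)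
      (fun i j hij => h2 _ _ fun he => hij (Fin.castLE_injective _ he))
  · rw [isModel_iff] at hB
    obtain ⟨h1, h2, -⟩ := hB
    exact exists_ne (fun i : Fin 3 => B (Sum.inl i)) (fun i => (h1 _).1)
      (fun i j hij => h2 _ _ fun he => hij (Sum.inl.inj he))

theorem gTWO : Goals.MODX → Goals.TWO := by
  intro hM V _ G n u x X hS hxu hX
  have hnon : ¬ Pl G ((X : Set V)ᶜ) := hS.non X hX.card.le
  -- the key step
  have key : ∀ p, p ≠ u → p ≠ x → (∀ z, z ∈ Rest u x X → G.Adj x z → z = p) → False := by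
    intro p hpu hpx hz
    have hup := hS.dom p hpu
    obtain ⟨E, F, P, Q, -, hd, -, hpP, hpQ, -⟩ := hM V G ((X : Set V)ᶜ) u x p p hxu.symm hpx hpx
      hup hup (fun z hzZ hxz => by
        by_cases hzu : z = u
        · exact Or.inl hzu
        · exact Or.inr (Or.inl (hz z ⟨hzZ, hzu, hxz.ne'⟩ hxz))) hX.pl hnon
    simp only [List.pairwise_cons, List.mem_cons, List.not_mem_nil, or_false, forall_eq_or_imp,
      forall_eq, IsEmpty.forall_iff, implies_true, List.Pairwise.nil, and_true] at hd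
    exact Set.disjoint_left.1 hd.2.2 hpP hpQ
  by_contra hcon
  push Not at hcon
  by_cases hex : ∃ p, p ∈ Rest u x X ∧ G.Adj x p
  · obtain ⟨p, hp, hxp⟩ := hex
    refine key p hp.2.1 hp.2.2 fun z hz hxz => ?_
    by_contra hne
    exact hcon p z (Ne.symm hne) hp hz hxp hxz
  · push Not at hex
    obtain ⟨p, hpu, hpx⟩ := exists_ne_of_not_pl (u := u) (x := x) hnon
    exact key p hpu hpx fun z hz hxz => absurd hxz (hex z hz)

end NApexGraphs.Dom.Helper5
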